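import Mathlib
import Pool.Agent.W936.VN.Sum

/-!
# Polynomial-time identity testing of sums of expressions with division

We give a deterministic identity test with polynomially many evaluations for arithmetic expressions
with the operations `+`, `-`, `×` and `÷`, of any size and depth. Every gate may compute
`(c₀ + c₁ a + c₂ b + c₃ ab) / (c₄ + c₅ a + c₆ b + c₇ ab)` from its arguments `a`, `b`. The leaves are
polynomials (or fractions of polynomials) with at most `s` monomials, or oblivious linear programs
of width `w` over such polynomials, nested to constant depth, and every variable occurs in at most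
`w` leaves. More generally, the test applies to sums of any number of polynomials in `w` such
expressions, where any `r` variables, outside of `w` exceptional ones, occur together in at most `κ`
summands (`w`, `κ`, `r` and the depth are constants).

The test is not blackbox: it first computes an origin `σ` with nonzero coordinates at which no
denominator vanishes and at which the gates, as linear maps of the pairs (numerator, denominator) of
their arguments, are nonsingular, unless their determinants are the zero polynomial (`Run`). The set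
of points `σ_i p_i^u + ∑_l y_l ∏_{k ≠ i} (z_l - k)` with polynomially many seeds `u, y, z` then
contains for every nonzero sum a point at which no denominator vanishes and the value is not zero.

The proof: the values of the gates are pairs of polynomials, and the gates are bilinear maps.
* Networks of vectors (`Pool.Agent.W936.VN.Vec1` - `Vec4`): the method of `Pool.Agent.H530R2.Tre1` -
  `Tre4` for formulas of polynomials works for networks whose values are vectors of a bounded number
  of polynomials and whose gates are arbitrary polynomial maps, if the Jacobian matrices of the gates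
  with respect to the arguments (which are not leaves) are zero or nonsingular at the origin.
* Singular gates (`Red`, `Red2`): a pencil of singular `2 × 2` matrices has a common kernel or a
  common image. Hence every expression with bilinear gates has the value of an expression with
  nonsingular gates up to a factor, which is a product of polynomials in two such expressions; the
  fraction is the same.
* Sums (`Thf`): if a sum of fractions is not zero, but the generator vanishes on its numerator, the
  differences of two substitutions of constants for a variable `x` are sums over the link of `x`.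
-/

set_option autoImplicit false

namespace Pool.Agent.Results.MP_3c5c20_lc.ExpressionsWithDivision

open MvPolynomial

open Pool.Agent.Results.MP_e2be99_lc.FormulasOverSparse (Run points points_card exists_run)

open Pool.Agent.W936.VN Pool.Agent.W936.RO Pool.Agent.W936.WB Pool.Agent.W936.XN

theorem gate_aux {K : Type*} [Field K] {x₀ x₁ y₀ y₁ t₀ t₁ t₂ t₃ : K} (hx : x₁ ≠ 0) (hy : y₁ ≠ 0) :
    t₀ * x₀ * y₀ + t₁ * x₀ * y₁ + (t₂ * x₁ * y₀ + t₃ * x₁ * y₁) =
      (x₁ * y₁) * (t₃ + t₁ * (x₀ / x₁) + t₂ * (y₀ / y₁) + t₀ * ((x₀ / x₁) * (y₀ / y₁))) := by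
  field_simp
  ring

/-- the fraction computed by a gate -/
theorem gate_rat {n : ℕ} (t : Fin 2 → Fin 2 → Fin 2 → ℂ) (a b : Frac n) (ha : a.val 1 ≠ 0)
    (hb : b.val 1 ≠ 0) : (Frac.gate t a b).rat =
      (algebraMap ℂ _ (t 0 1 1) + algebraMap ℂ _ (t 0 0 1) * a.rat +
        algebraMap ℂ _ (t 0 1 0) * b.rat + algebraMap ℂ _ (t 0 0 0) * (a.rat * b.rat)) /
      (algebraMap ℂ _ (t 1 1 1) + algebraMap ℂ _ (t 1 0 1) * a.rat +
        algebraMap ℂ _ (t 1 1 0) * b.rat + algebraMap ℂ _ (t 1 0 0) * (a.rat * b.rat)) := by
  set K := FractionRing (MvPolynomial (Fin n) ℂ) with hK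
  set ψ : MvPolynomial (Fin n) ℂ →+* K := algebraMap _ K with hψ
  have ψinj : Function.Injective ψ := IsFractionRing.injective (MvPolynomial (Fin n) ℂ) K
  have ha' : ψ (a.val 1) ≠ 0 := fun h => ha (ψinj (by rw [h, map_zero]))
  have hb' : ψ (b.val 1) ≠ 0 := fun h => hb (ψinj (by rw [h, map_zero]))
  have hC : ∀ c : ℂ, ψ (C c) = algebraMap ℂ K c := fun c => rfl
  have key : ∀ i, ψ ((Frac.gate t a b).val i) = (ψ (a.val 1) * ψ (b.val 1)) *
      (algebraMap ℂ K (t i 1 1) + algebraMap ℂ K (t i 0 1) * a.rat +
        algebraMap ℂ K (t i 1 0) * b.rat + algebraMap ℂ K (t i 0 0) * (a.rat * b.rat)) := by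
    intro i
    have ea : a.rat = ψ (a.val 0) / ψ (a.val 1) := rfl
    have eb : b.rat = ψ (b.val 0) / ψ (b.val 1) := rfl
    rw [ea, eb]
    simp only [Frac.val, Fin.sum_univ_two, map_add, map_mul, hC]
    exact gate_aux ha' hb'
  show ψ _ / ψ _ = _
  rw [key, key, mul_div_mul_left _ _ (mul_ne_zero ha' hb')]

/-- Let `w, D, κ, r` be fixed. There are `k, m` such that the following holds for every list `l` of
expressions with division in `n` variables, over leaves of depth at most `D` (for `D = 0`, fractions
of polynomials with at most `s` monomials), where every variable occurs in at most `w` leaves of an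
expression, and for every `d` that is at least `n` plus the sum of the degrees of the polynomials in
`tests l` (the determinants of the gates, and the denominators). Let `N = (s + 3)^k`. The search
`Run` over the explicit sets `points n m N d` and the list `tests l` always ends in an origin `σ`
with the following property. Let `f = ∑_i P_i(E_i1, …, E_iw)` be a nonzero rational function, where
the `P_i` are polynomials and the `E_ij` belong to `l` and have a denominator which is not the zero
polynomial, and where any `r` variables outside of a set `Y` of at most `w` variables occur together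
in at most `κ` of the summands. If `d ≥ ∑_ij (deg P_i + 1) deg E_ij`, then there is one of the at
most `(Nd+1) ((d+1)(nd+1))^m` points of `points n m N d σ` at which no denominator of the `E_ij`
vanishes and at which the value of `f` is not zero. The coordinates of `σ` have polynomial length,
there are polynomially many tests, and their degrees are at most twice the formal degrees of the
expressions. The gates compute all fractions
`(c₀ + c₁ a + c₂ b + c₃ ab) / (c₄ + c₅ a + c₆ b + c₇ ab)`. -/
theorem result :
    (∀ w D κ r : ℕ, ∃ k m : ℕ, ∀ (n d s : ℕ) (l : List (Frac n)),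
      (∀ E ∈ l, E.Leaves (Prg w s D) ∧ ∀ x, E.reads x ≤ w) →
      n + ((tests l).map totalDegree).sum ≤ d →
      (∀ σ, (points n m ((s + 3) ^ k) d σ).card ≤
        ((s + 3) ^ k * d + 1) * ((d + 1) * (n * d + 1)) ^ m) ∧
      (∃ σ K, Run (points n m ((s + 3) ^ k) d) (tests l) σ K) ∧
      ∀ σ K, Run (points n m ((s + 3) ^ k) d) (tests l) σ K →
        (∀ i, |σ i| ≤ (((2 ^ (n * (s + 3) ^ k * d) + m * d * (n * d + n) ^ (n - 1)) ^
          (tests l).length : ℕ) : ℤ)) ∧
        ∀ (R : ℕ) (E : Fin R → Fin w → Frac n) (P : Fin R → MvPolynomial (Fin w) ℂ)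
          (Y : Finset (Fin n)), (∀ i j, E i j ∈ l ∧ (E i j).val 1 ≠ 0) → Y.card ≤ w →
          (∀ S : Finset (Fin n), S.card = r → Disjoint S Y →
            (Finset.univ.filter fun i => S ⊆ occurring (E i)).card ≤ κ) →
          ∑ i, ∑ j, ((P i).totalDegree + 1) * (E i j).degree ≤ d →
          ∑ i, aeval (fun j => (E i j).rat) (P i) ≠ 0 →
          ∃ p ∈ points n m ((s + 3) ^ k) d σ,
            (∀ i j, eval (fun x => (p x : ℂ)) ((E i j).val 1) ≠ 0) ∧
            ∑ i, eval (fun j => (E i j).valueAt p) (P i) ≠ 0) ∧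
    (∀ (n S δ : ℕ) (l : List (Frac n)), (∀ E ∈ l, E.size ≤ S ∧ E.degree ≤ δ) →
      (tests l).length ≤ 2 * S * l.length ∧
        ((tests l).map totalDegree).sum ≤ 2 * S * l.length * (2 * δ)) ∧
    (∀ (n : ℕ) (t : Fin 2 → Fin 2 → Fin 2 → ℂ) (a b : Frac n), a.val 1 ≠ 0 → b.val 1 ≠ 0 →
      (Frac.gate t a b).rat =
        (algebraMap ℂ _ (t 0 1 1) + algebraMap ℂ _ (t 0 0 1) * a.rat +
          algebraMap ℂ _ (t 0 1 0) * b.rat + algebraMap ℂ _ (t 0 0 0) * (a.rat * b.rat)) /
        (algebraMap ℂ _ (t 1 1 1) + algebraMap ℂ _ (t 1 0 1) * a.rat +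
          algebraMap ℂ _ (t 1 1 0) * b.rat + algebraMap ℂ _ (t 1 0 0) * (a.rat * b.rat))) := by
  refine ⟨?_, fun n S δ l h => tests_count l S δ h, fun n t a b ha hb => gate_rat t a b ha hb⟩
  intro w D κ r
  obtain ⟨A₀, m₀, h₀⟩ := atom_hit w D
  obtain ⟨A₁, m₁, h₁⟩ := sum_hit w D κ r
  refine ⟨A₀ + A₁, m₀ + m₁, fun n d s l hl hD => ⟨fun σ => points_card _ _ d σ,
    exists_run _ _, fun σ K hrun => ⟨fun i => hrun.bound i, ?_⟩⟩⟩
  intro R E P Y hE hY hthin hd hne
  have hN0 : (s + 3) ^ A₀ ≤ (s + 3) ^ (A₀ + A₁) := Nat.pow_le_pow_right (by omega) (by omega)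
  have hN1 : (s + 3) ^ A₁ ≤ (s + 3) ^ (A₀ + A₁) := Nat.pow_le_pow_right (by omega) (by omega)
  have hlg : ∀ E ∈ l, FGood w s D E := fun E hE => ⟨?_, (hl E hE).2⟩
  swap
  · have h1 := (hl E hE).1
    clear * - h1
    induction E with
    | leaf p q => exact ⟨Or.inl h1.1, Or.inl h1.2⟩
    | gate t a b iha ihb => exact ⟨iha h1.1, ihb h1.2⟩
  set h : MvPolynomial (Fin n) ℂ := sumN E P * ∏ x : Fin R × Fin w, (E x.1 x.2).val 1 with hh
  have hdeg : h.totalDegree ≤ d := by
    refine (totalDegree_mul _ _).trans (le_trans (Nat.add_le_add (sumN_degree E P)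
      ((totalDegree_finsetProd _ _).trans (Finset.sum_le_sum (g := fun x : Fin R × Fin w =>
        (E x.1 x.2).degree) fun x _ => val_degree _ 1))) (le_trans (le_of_eq ?_) hd))
    rw [Fintype.sum_prod_type, ← Finset.sum_add_distrib]
    refine Finset.sum_congr rfl fun i _ => ?_
    rw [← Finset.sum_add_distrib]
    exact Finset.sum_congr rfl fun j _ => by ring
  have hsum : IsSum l w κ r E P := ⟨hE, ⟨Y, hY, fun S hS hSY =>
    le_trans (le_of_eq (by congr!)) (hthin S hS hSY)⟩, hne⟩
  have hinj := IsFractionRing.injective (MvPolynomial (Fin n) ℂ)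
    (FractionRing (MvPolynomial (Fin n) ℂ))
  have hden0 : ∀ i j, algebraMap (MvPolynomial (Fin n) ℂ)
      (FractionRing (MvPolynomial (Fin n) ℂ)) ((E i j).val 1) ≠ 0 := fun i j h =>
    (hE i j).2 (hinj (by rw [h, map_zero]))
  have hnum0 : sumN E P ≠ 0 := by
    intro h0
    have h6 := sumN_eq (algebraMap (MvPolynomial (Fin n) ℂ)
      (FractionRing (MvPolynomial (Fin n) ℂ))) E P hden0
    rw [h0, map_zero] at h6
    refine mul_ne_zero ?_ ?_ h6.symm
    · exact Finset.prod_ne_zero_iff.2 fun i _ => Finset.prod_ne_zero_iff.2 fun j _ =>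
        pow_ne_zero _ (hden0 i j)
    · intro h7
      apply hne
      rw [← h7]
      exact Finset.sum_congr rfl fun i _ => rat_eval (E i) (P i)
  set F : Multiset (MvPolynomial (Fin n) ℂ) := sumN E P ::ₘ
    (Finset.univ.val.map fun x : Fin R × Fin w => (E x.1 x.2).val 1) with hF
  have hdvd : h ∣ F.prod := by
    rw [hF, Multiset.prod_cons]
    exact dvd_rfl
  have hadm := adm_tests (w := w) (s := s) (D := D) (N := (s + 3) ^ (A₀ + A₁))
      (M := m₀ + m₁) (fun σ hσ g hg => Atoms.hit hg ((rVan _).prime _ _) fun g hg hc =>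
        h₀ n s _ hN0 σ hσ g hg ((rVan _).mono (Nat.le_add_right m₀ m₁) ∅ hc)) l hlg
  have hcls : ∀ σ : Fin n → ℂ, (∀ i, σ i ≠ 0) → (∀ x ∈ tests l, x ≠ 0 → eval σ x ≠ 0) →
      ∀ f, (f = sumN E P ∨ ∃ i j, f = (E i j).val 1) → f ≠ 0 →
      sext f ∉ (rVan (sbase σ ((s + 3) ^ (A₀ + A₁)))).I (m₀ + m₁) ∅ := by
    intro σ hσ hreg f hf h0 hc
    rcases hf with rfl | ⟨i, j, rfl⟩
    · exact h₁ n s _ hN1 l hlg σ hσ hreg R E P hsum
        ((rVan _).mono (Nat.le_add_left m₁ m₀) ∅ hc)
    · exact hit_of_eval (hreg _ (List.mem_flatMap.2 ⟨_, (hE i j).1, List.mem_append.2 (Or.inr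
        (List.mem_singleton.2 rfl))⟩) h0) _ ∅ hc
  have hFm : ∀ g ∈ F, (g = sumN E P ∨ ∃ i j, g = (E i j).val 1) ∧ g ≠ 0 := by
    intro g hg
    rcases Multiset.mem_cons.1 hg with rfl | hg
    · exact ⟨Or.inl rfl, hnum0⟩
    · obtain ⟨x, _, rfl⟩ := Multiset.mem_map.1 hg
      exact ⟨Or.inr ⟨x.1, x.2, rfl⟩, (hE x.1 x.2).2⟩
  obtain ⟨p, hp, hpe⟩ := run_hit hadm hD
    (Cls := fun f => f = sumN E P ∨ ∃ i j, f = (E i j).val 1) hcls hrun hFm hdvd hdeg
  rw [hh, map_mul, map_prod] at hpe
  have hden : ∀ i j, eval (fun x => (p x : ℂ)) ((E i j).val 1) ≠ 0 := fun i j =>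
    Finset.prod_ne_zero_iff.1 (right_ne_zero_of_mul hpe) (i, j) (Finset.mem_univ _)
  refine ⟨p, hp, hden, ?_⟩
  have h2 := left_ne_zero_of_mul hpe
  rw [sumN_eq (eval fun x => (p x : ℂ)) E P hden] at h2
  have h3 := right_ne_zero_of_mul h2
  intro h4
  apply h3
  rw [← h4]
  refine Finset.sum_congr rfl fun i _ => ?_
  have h5 : (eval fun x => (p x : ℂ)).comp C = RingHom.id ℂ := by
    ext c
    simp
  rw [h5]
  rfl

end Pool.Agent.Results.MP_3c5c20_lc.ExpressionsWithDivision
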