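import Pool.Agent.W936.NG.Net

/-!
# Arithmetic expressions with arbitrary local gates over depth-4 circuits

We give explicit hitting sets of polynomial size for arithmetic expressions of any size and depth,
which are built by two kinds of gates from sums of `κ` products:

* products, whose arguments may share any number of variables;
* arbitrary polynomials in two arguments, which share at most `w` variables (a bag), and in the
  variables of the bag; for instance sums of two arguments.

The bags must be arranged as in a tree decomposition: the variables of a bag which occur below the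
next gate are in the bag of this gate. The sums of `κ` products, of any number of factors, are
those of `MP_c2aa42_lc.SumsOfSparseFormulas`; the factors are polynomials with at most `s`
monomials and boundedly many exponents of every variable (so the depth-4 circuits of top fan-in
`κ`, for instance), or read-once formulas of any depth over such polynomials, or formulas which
read every variable at most `w` times, of bounded rank. So sums of unboundedly many depth-4
circuits on disjoint sets of variables, products of these, polynomials in two such polynomials
which share few variables, and so on, are tested in polynomial time. (As a polynomial in two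
arguments may have exponentially many monomials, the degree of the computed polynomial has to be
bounded.)

The proof: for a polynomial `f` of the class and a set `S` of at most `w` variables, the generator
with the free variables in `S` does not identify `f` with a polynomial in the variables of `S`,
unless it is one (`HitS`). For sums of `κ` products this follows from the theorem on sums of
`κ + w` products, as a polynomial in the variables in `S` is a polynomial in the products `x_i`.
The property is passed on by the gates: at a generic point of the set of values of the generator,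
on a curve through this point, the values of the arguments of a gate have their poles at different
places, so that they are algebraically independent over the functions of the bag
(`Pool.Agent.H530R2.Rat5`).
-/

set_option autoImplicit false

namespace Pool.Agent.Results.MP_3c5c20_lc.LocalGates

open MvPolynomial

open Pool.Agent.Results.MP_c2aa42_lc.SumsOfSparseFormulas (Composite Sums points)

variable {n : ℕ}

/-- `Net w s D t κ S f`: the polynomial `f` is computed, where the set `S` of variables is the bag
of the gate above.
* `sums`: the members of `Sums w s D t κ` (for instance all sums of `κ` products of members of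
  `Composite w s D t`).
* `product`: a product of two members (with the same bag above).
* `gate`: a polynomial `h` in `f`, `g` and the variables of a bag `B` of at most `w` variables. The
  bag contains all variables which occur in `f` and in `g`, and all variables of the bag `S`
  which occur in `f` or in `g`. -/
inductive Net (w s D t κ : ℕ) : Finset (Fin n) → MvPolynomial (Fin n) ℂ → Prop
  | sums {S : Finset (Fin n)} {f : MvPolynomial (Fin n) ℂ} : Sums w s D t κ f →
      Net w s D t κ S f
  | product {S : Finset (Fin n)} {f g : MvPolynomial (Fin n) ℂ} : Net w s D t κ S f →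
      Net w s D t κ S g → Net w s D t κ S (f * g)
  | gate {S B : Finset (Fin n)} {f g h : MvPolynomial (Fin n) ℂ} : B.card ≤ w →
      f.vars ∩ g.vars ⊆ B → S ∩ (f.vars ∪ g.vars) ⊆ B → Net w s D t κ B f → Net w s D t κ B g →
      h ∈ Algebra.adjoin ℂ (({f, g} : Set (MvPolynomial (Fin n) ℂ)) ∪ X '' (B : Set (Fin n))) →
      Net w s D t κ S h

open Pool.Agent.W936.NG

open Pool.Agent.H626R2.Loc (evG base)

open Pool.Agent.H530R2 (bVan mem_bVan)

/-- the members of the class do not vanish on the generator -/
theorem net_hit (w D κ : ℕ) : ∃ A m : ℕ, ∀ (n s t : ℕ) (f : MvPolynomial (Fin n) ℂ),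
    Net w s D t κ ∅ f → f ≠ 0 → evG ℂ (base ℂ n ((s + 3) ^ A)) (m * (t + 1)) f ≠ 0 := by
  obtain ⟨A, m, hm⟩ := sums_hitS w D κ
  refine ⟨A, m + w + 1, ?_⟩
  intro n s t f hf h0 hc
  have hw : w < (m + w + 1) * (t + 1) :=
    lt_of_lt_of_le (by omega : w < m + w + 1) (Nat.le_mul_of_pos_right _ (Nat.succ_pos t))
  have key : ∀ (S : Finset (Fin n)) (f : MvPolynomial (Fin n) ℂ), Net w s D t κ S f →
      S.card ≤ w → HitS n ((s + 3) ^ A) ((m + w + 1) * (t + 1)) S f := by
    intro S f hf
    induction hf with
    | sums h =>
      intro hS
      refine hitS_of fun e he hne hmem => ?_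
      refine hm n s t _ h _ hS e he hne ((bVan n _).mono ?_ _ hmem)
      exact Nat.mul_le_mul_right _ (by omega)
    | product _ _ ihf ihg =>
      intro hS
      exact hitS_mul (lt_of_le_of_lt hS hw) (ihf hS) (ihg hS)
    | gate hB h1 h2 _ _ hh ihf ihg =>
      intro _
      exact hitS_gate (lt_of_le_of_lt hB hw) h1 h2 (ihf hB) (ihg hB) hh
  exact hitS_ne (lt_of_le_of_lt (Nat.zero_le _) hw)
    (lt_of_le_of_lt (by rw [Finset.card_empty]; exact Nat.zero_le w) hw)
    (key ∅ f hf (by rw [Finset.card_empty]; exact Nat.zero_le w)) h0 (mem_bVan hc)

/-- For all constants `w, D, κ` there are `k, m` such that for all `n, d, s, t` and `N = (s + 3)^k`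
the explicit set `points n (m (t + 1)) N d ⊆ ℤ^n` with at most
`(Nd+1) ((d+1)(nd+1))^(m (t+1))` elements hits every polynomial `f` of total degree at most `d` in
`n` variables which divides a product of nonzero members of `Net w s D t κ ∅`. -/
theorem result (w D κ : ℕ) : ∃ k m : ℕ, ∀ n d s t : ℕ,
    (points n (m * (t + 1)) ((s + 3) ^ k) d).card ≤
      ((s + 3) ^ k * d + 1) * ((d + 1) * (n * d + 1)) ^ (m * (t + 1)) ∧
    (∀ p ∈ points n (m * (t + 1)) ((s + 3) ^ k) d, ∀ i, |p i| ≤
      ((2 ^ (n * (s + 3) ^ k * d) + m * (t + 1) * d * (n * d + n) ^ (n - 1) : ℕ) : ℤ)) ∧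
    ∀ (f : MvPolynomial (Fin n) ℂ) (F : Multiset (MvPolynomial (Fin n) ℂ)),
      (∀ g ∈ F, Net w s D t κ ∅ g ∧ g ≠ 0) → f ∣ F.prod → f.totalDegree ≤ d →
        ∃ p ∈ points n (m * (t + 1)) ((s + 3) ^ k) d,
          MvPolynomial.eval (fun i => (p i : ℂ)) f ≠ 0 := by
  obtain ⟨k, m, hm⟩ := net_hit w D κ
  refine ⟨k, m, fun n d s t =>
    ⟨Pool.Agent.H626R2.Loc.pointsE_card n _ ((s + 3) ^ k) d,
    fun p hp i => Pool.Agent.H626R2.Loc.pointsE_bound n _ ((s + 3) ^ k) d p hp i,
    fun f F hF hdvd hd => ?_⟩⟩
  refine Pool.Agent.Results.MP_c2aa42_lc.SumsOfSparseFormulas.exists_point (fun hz => ?_) hd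
  obtain ⟨g, hg⟩ := hdvd
  have h2 : evG ℂ (base ℂ n ((s + 3) ^ k)) (m * (t + 1)) F.prod = 0 := by
    rw [hg, map_mul, hz, zero_mul]
  rw [map_multiset_prod, Multiset.prod_eq_zero_iff, Multiset.mem_map] at h2
  obtain ⟨g', hg', hg0⟩ := h2
  exact hm n s t g' (hF g' hg').1 (hF g' hg').2 hg0

end Pool.Agent.Results.MP_3c5c20_lc.LocalGates
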