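import Mathlib
import Pool.Agent.W936.XN.Run
import Pool.Agent.W936.LC.Class
import Pool.Agent.W936.NG.Trd

/-!
# Identity testing of sums of unboundedly many products of formulas of any depth

We give a deterministic identity test with polynomially many evaluations for arithmetic expressions
of the following kind. `l` is a list of formulas of any size and depth, without any restriction on
the alternation of sums and products, in which every variable occurs in at most `w` leaves; the
leaves are polynomials with at most `s` monomials, or oblivious programs of width `w` over such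
polynomials, nested to constant depth. The test applies to

* sums of *any number* of products, of any number of factors, where each factor is a polynomial in
  `w` formulas of `l`, and the sets of variables of the products form a thin hypergraph (`Thin`):
  for instance if any `r` variables occur together in at most `κ` of the products (`r`, `κ`
  constants), with exceptions for boundedly many partners of every variable (sets of variables);
* expressions of any size and depth over such sums, with products, and with arbitrary polynomial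
  gates whose arguments share at most `w` variables (`Net`), and factors of products of such
  polynomials.

Before, polynomial-time tests were known for sums of a constant number `κ` of products of such
formulas (`MP_e2be99_lc.FormulasOverSparse`), and for unboundedly many products, or for arbitrary
gates above the sums, only for formulas of bounded rank (`MP_c2aa42_lc.BoundedCooccurrence`,
`LocalGates`). The test is not blackbox: it first computes an origin `σ` with nonzero coordinates at
which no partial derivative of a gate vanishes, unless it is the zero polynomial, for the formulas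
of `l` and their modifications with one subformula replaced by `0` or `1` (`Run`). The set of points
`σ_i p_i^u + ∑_l y_l ∏_{k ≠ i} (z_l - k)` with polynomially many seeds `u, y, z` then hits all
polynomials of the class.

The proof: sums of boundedly many products, plus a polynomial in at most `w` variables, are hit by
the arguments of `FormulasOverSparse`. For all but finitely many constants `a` the modified formulas
remain regular at `σ` when `a` is substituted for a variable `x`. The difference of two such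
substitutions in a thin sum is a sum over the link of `x`, of smaller depth; if it vanishes for
almost all pairs of constants, the sum does not depend on `x`; otherwise it is hit, and one more
seed makes `x` free (`Pool.Agent.W936.XN.Clo`). For the gates: at a generic point of the set of
values of the generator, on a curve through this point, the values of the arguments have their
poles at different places, so that they are algebraically independent over the functions of the
bag (`Pool.Agent.H530R2.Rat5`, `Pool.Agent.W936.XN.Gat`).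
-/

set_option autoImplicit false

namespace Pool.Agent.Results.MP_3c5c20_lc.OverlappingSums

open MvPolynomial

open Pool.Agent.Results.MP_e2be99_lc.FormulasOverSparse (Formula Run points Prog Factor tests)

open Pool.Agent.W936.XN (Thin Net)

variable {n : ℕ}

/-- sums of any number of products, of any number of factors, of members of `Factor l w`, such that
the sets of variables of the products form a thin hypergraph -/
def ThinSum (l : List (Formula n)) (w κ r : ℕ) (f : MvPolynomial (Fin n) ℂ) : Prop :=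
  ∃ (N : ℕ) (T : Fin N → Multiset (MvPolynomial (Fin n) ℂ)), (∀ i, ∀ g ∈ T i, Factor l w g) ∧
    Thin w κ r Finset.univ (fun i => (T i).prod.vars) ∧ f = ∑ i, (T i).prod

open Pool.Agent.H530R2 Pool.Agent.W936.RO Pool.Agent.W936.WB Pool.Agent.W936.XN
  Pool.Agent.W936.LC

open Pool.Agent.H626R2.Loc (BddTrG)

open Pool.Agent.Results.MP_e2be99_lc.FormulasOverSparse (bd nc prog_mem Good LeafP toTr toTr_val
  toTr_occ toTr_ml toTr_segs toTr_lv LfD Adm gps_ne)

/-- the gates of all modified formulas are regular at the origin -/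
def Regular (σ : Fin n → ℂ) (E : Formula n) : Prop :=
  ∀ E' ∈ E.segs, ∀ g ∈ E'.partials, g ≠ 0 → eval σ g ≠ 0

theorem prog_mono {w s s' D : ℕ} (hs : s ≤ s') {g : MvPolynomial (Fin n) ℂ} (h : Prog w s D g) :
    Prog w s' D g := by
  induction h with
  | sparse h1 h2 => exact .sparse (h1.trans hs) h2
  | program c₀ M R P h1 h2 _ ih => exact .program c₀ M R P h1 h2 ih

theorem prog_X' {w s D : ℕ} (hw : 1 ≤ w) (hs : 1 ≤ s) (i : Fin n) :
    Prog w s D (X i : MvPolynomial (Fin n) ℂ) := by
  induction D with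
  | zero =>
    refine .sparse ?_ (Or.inl ?_)
    · have h1 : (X i : MvPolynomial (Fin n) ℂ).support = {Finsupp.single i 1} := support_X
      rw [h1, Finset.card_singleton]
      exact hs
    · rw [vars_X, Finset.card_singleton]
  | succ D ih =>
    have h1 : (X i : MvPolynomial (Fin n) ℂ) =
        aeval (MP_e2be99_lc.FormulasOverSparse.contents (fun _ : Fin 1 => (1 : ℂ))
          (fun _ => Matrix.of fun _ _ => X i) 1) (X 0 : MvPolynomial (Fin 1) ℂ) := by
      rw [aeval_X]
      simp [MP_e2be99_lc.FormulasOverSparse.contents, Matrix.vecMul, dotProduct]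
    rw [h1]
    refine .program _ _ 1 _ hw (fun x => ?_) (fun _ _ _ => ih)
    refine le_trans (Finset.card_filter_le _ _) ?_
    rw [Finset.card_range]
    exact hw

/-- polynomials in `w` formulas whose gates are regular at the origin -/
def Fac (w s D : ℕ) (σ : Fin n → ℂ) (g : MvPolynomial (Fin n) ℂ) : Prop :=
  ∃ (E : Fin w → Formula n) (P : MvPolynomial (Fin w) ℂ),
    (∀ i, (E i).Leaves (Prog w s D) ∧ (∀ x, (E i).reads x ≤ w) ∧ Regular σ (E i)) ∧
      g = aeval (fun i => (E i).value) P

/-- the same over the field of rational functions -/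
def FacR (w s D : ℕ) (σ : Fin n → ℂ) (g : MvPolynomial (Fin n) (RatFunc ℂ)) : Prop :=
  ∃ h, Fac w s D σ h ∧ g = sext h

theorem regular_leaf (σ : Fin n → ℂ) (g : MvPolynomial (Fin n) ℂ) : Regular σ (.leaf g) := by
  intro E' hE' x hx
  simp only [Formula.segs, Formula.holes, List.mem_cons, List.not_mem_nil, or_false] at hE'
  rcases hE' with rfl | rfl | rfl <;> exact absurd hx List.not_mem_nil

theorem bdd_hit (w D K : ℕ) : ∃ A m : ℕ, ∀ n s N : ℕ, (s + 3) ^ A ≤ N → ∀ σ : Fin n → ℂ,
    (∀ i, σ i ≠ 0) → ∀ f : MvPolynomial (Fin n) (RatFunc ℂ), BddTrG (FacR w s D σ) K f →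
    ∀ S : Finset (Fin n), S.card ≤ w → ∀ e ∈ supported (RatFunc ℂ) (S : Set (Fin n)),
    f + e ≠ 0 → f + e ∉ (rVan (sbase σ N)).I m ∅ := by
  classical
  by_contra hcon
  push Not at hcon
  choose n_ s_ N_ hN σ_ hσ f_ hf_ S_ hS_ e_ he_ h0_ hev using fun k => hcon k k
  have hβ : ∀ k (h : MvPolynomial (Fin (n_ k)) ℂ), h ≠ 0 →
      h.support.card ≤ (s_ k + 1 + 2) ^ k → aeval (sbase (σ_ k) (N_ k)) h ≠ 0 :=
    fun k h h0 hs => sbase_ne (hσ k) h0 (hs.trans (hN k))
  set 𝔎 : Fam (RatFunc ℂ) := bfam n_ (fun k => s_ k + 1) (fun k => sbase (σ_ k) (N_ k)) hβ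
    with h𝔎
  obtain ⟨m, hm⟩ := tree_hit4 (F := RatFunc ℂ) (up 𝔎 D) (K + w) (w + 1) w (nc w (K + w) D)
    (bd w D + (up 𝔎 D).c0) (Nat.succ_pos w)
  have hmem : ∀ f : MvPolynomial (Fin (n_ m)) ℂ, f.support.card ≤ s_ m + 1 →
      sext f ∈ 𝔎.K m (n_ m) 1 := fun f hf => bfam_mem hβ m hf
  set Q : Tr (RatFunc ℂ) (n_ m) → Prop := fun T => ∃ E : Formula (n_ m),
    Good w (s_ m + 1) D E ∧ Regular (σ_ m) E ∧ T = toTr E with hQ
  refine hm (n_ m) m (rpt (sbase (σ_ m) (N_ m))) (bfam_ok hβ D m) (LfD 𝔎 m (n_ m) w D (K + w))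
    Q (fun g hg => hg.1) (fun y => LfD.const y) (fun A hA g hg => hg.2 A hA) ?_ (f_ m + e_ m) ?_
    (h0_ m) (hev m)
  · rintro T ⟨E, hE, hreg, rfl⟩
    refine ⟨toTr_ml E, toTr_lv hmem E hE.1, fun i => ?_, ?_⟩
    · rw [toTr_occ]
      exact (hE.2 i).trans (Nat.le_succ w)
    · intro T' hT'
      rw [toTr_segs] at hT'
      obtain ⟨E', hE', rfl⟩ := List.mem_map.1 hT'
      exact gps_ne (hreg E' hE')
  · refine Pool.Agent.W936.NG.bddTr_add (hS_ m) (he_ m) ?_ ?_
    · intro i hi
      have hw : 1 ≤ w := (Finset.card_pos.2 ⟨i, hi⟩).trans_le (hS_ m)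
      refine ⟨fun _ => toTr (.leaf (X i)), X ⟨0, hw⟩, fun _ => ⟨.leaf (X i), ⟨Or.inl
        (prog_X' hw (Nat.le_add_left _ _) i), fun x => ?_⟩, regular_leaf _ _, rfl⟩, ?_⟩
      · simp only [Formula.reads]
        split_ifs
        · exact hw
        · exact Nat.zero_le _
      · rw [aeval_X, toTr_val]
        exact (map_X _ _).symm
    · obtain ⟨N', T, hT, hdep, hmem'⟩ := hf_ m
      refine ⟨N', T, fun i g hg => ?_, hdep, hmem'⟩
      obtain ⟨h, ⟨E, P, hE, rfl⟩, rfl⟩ := hT i g hg
      refine ⟨fun i => toTr (E i), map (algebraMap ℂ (RatFunc ℂ)) P, fun i => ⟨E i,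
        ⟨MP_e2be99_lc.FormulasOverSparse.Leaves.mono
          (fun _ h => Or.inl (prog_mono (Nat.le_succ _) h)) (hE i).1, (hE i).2.1⟩,
        (hE i).2.2, rfl⟩, ?_⟩
      rw [ext_aeval]
      congr 2
      funext i
      exact (toTr_val _).symm

/-- sums of few products -/
theorem bdd_sum {F : Type} [Field F] {Cc : MvPolynomial (Fin n) F → Prop} {I : Type}
    (J : Finset I) (c : I → F) (T : I → Multiset (MvPolynomial (Fin n) F))
    (hT : ∀ i ∈ J, ∀ g ∈ T i, Cc g) {K : ℕ} (hK : J.card ≤ K) :
    BddTrG Cc K (∑ i ∈ J, C (c i) * (T i).prod) := by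
  classical
  refine ⟨J.card, fun j => T (J.equivFin.symm j).1, fun j => hT _ (J.equivFin.symm j).2,
    fun u hu => ?_, ?_⟩
  · have h1 : Function.Injective u := by
      intro a b hab
      exact hu.injective (by
        show (T (J.equivFin.symm (u a)).1).prod = (T (J.equivFin.symm (u b)).1).prod
        rw [hab])
    have h2 := Fintype.card_le_of_injective u h1
    rw [Fintype.card_fin, Fintype.card_fin] at h2
    omega
  · refine Subalgebra.sum_mem _ fun i hi => Subalgebra.mul_mem _
      (Subalgebra.algebraMap_mem _ _) (Algebra.subset_adjoin ⟨J.equivFin ⟨i, hi⟩, ?_⟩)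
    show (T (J.equivFin.symm (J.equivFin ⟨i, hi⟩)).1).prod = _
    rw [Equiv.symm_apply_apply]

/-- products of regular factors -/
def Gd (w s D : ℕ) (σ : Fin n → ℂ) (g : MvPolynomial (Fin n) ℂ) : Prop :=
  ∃ T : Multiset (MvPolynomial (Fin n) ℂ), (∀ h ∈ T, Fac w s D σ h) ∧ g = T.prod

theorem gd_hit (w D K : ℕ) : ∃ A m : ℕ, ∀ n s N : ℕ, (s + 3) ^ A ≤ N → ∀ σ : Fin n → ℂ,
    (∀ i, σ i ≠ 0) → ∀ (I : Type) (J : Finset I) (c : I → ℂ) (g : I → MvPolynomial (Fin n) ℂ),
    J.card ≤ K → (∀ i ∈ J, Gd w s D σ (g i)) →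
    HitE (sbase σ N) m w (∑ i ∈ J, C (c i) * g i) := by
  classical
  obtain ⟨A, m, hm⟩ := bdd_hit w D K
  refine ⟨A, m, fun n s N hN σ hσ I J c g hJ hg S hS e he hne => ?_⟩
  choose T hT hgT using fun i : J => hg i.1 i.2
  refine hm n s N hN σ hσ _ ?_ S hS e he hne
  have h1 := bdd_sum (F := RatFunc ℂ) (Cc := FacR w s D σ) (K := K) J.attach
    (fun i => algebraMap ℂ (RatFunc ℂ) (c i.1)) (fun i => (T i).map sext) (fun i _ g hg => ?_)
    (by rw [Finset.card_attach]; exact hJ)
  · convert h1 using 1
    rw [map_sum, ← Finset.sum_attach]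
    refine Finset.sum_congr rfl fun i _ => ?_
    rw [map_mul, hgT i]
    congr 1
    · exact map_C _ _
    · exact map_multiset_prod (sext (n := n)) (T i)
  · obtain ⟨h, hh, rfl⟩ := Multiset.mem_map.1 hg
    exact ⟨h, hT i h hh, rfl⟩

section subst

/-- substitution of a constant in the leaves -/
noncomputable def fsbt (x : Fin n) (a : ℂ) : Formula n → Formula n
  | .leaf g => .leaf (sbt x a g)
  | .gate c₀ c₁ c₂ c₃ p q => .gate c₀ c₁ c₂ c₃ (fsbt x a p) (fsbt x a q)

theorem fsbt_value (x : Fin n) (a : ℂ) (E : Formula n) :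
    (fsbt x a E).value = sbt x a E.value := by
  induction E with
  | leaf g => rfl
  | gate c₀ c₁ c₂ c₃ p q ihp ihq =>
    simp only [fsbt, Formula.value, map_add, map_mul, sbt_C, ihp, ihq]

theorem fsbt_partials (x : Fin n) (a : ℂ) (E : Formula n) :
    (fsbt x a E).partials = E.partials.map (sbt x a) := by
  induction E with
  | leaf g => rfl
  | gate c₀ c₁ c₂ c₃ p q ihp ihq =>
    simp only [fsbt, Formula.partials, ihp, ihq, fsbt_value, List.map_append, List.map_cons,
      List.map_nil, map_add, map_mul, sbt_C]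

theorem fsbt_holes (x : Fin n) (a : ℂ) (E : Formula n) :
    (fsbt x a E).holes = E.holes.map (fsbt x a) := by
  induction E with
  | leaf g =>
    simp only [fsbt, Formula.holes, List.map_cons, List.map_nil, sbt_C]
  | gate c₀ c₁ c₂ c₃ p q ihp ihq =>
    simp only [fsbt, Formula.holes, ihp, ihq, List.map_append, List.map_cons, List.map_nil,
      List.map_map, sbt_C]
    rfl

theorem fsbt_segs (x : Fin n) (a : ℂ) (E : Formula n) :
    (fsbt x a E).segs = E.segs.map (fsbt x a) := by
  induction E with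
  | leaf g =>
    rw [Formula.segs, ← fsbt_holes]
    rfl
  | gate c₀ c₁ c₂ c₃ p q ihp ihq =>
    simp only [Formula.segs, List.map_append, ← fsbt_holes, ← ihp, ← ihq]
    rfl

theorem fsbt_reads (x : Fin n) (a : ℂ) (E : Formula n) (i : Fin n) :
    (fsbt x a E).reads i ≤ E.reads i := by
  classical
  induction E with
  | leaf g =>
    simp only [fsbt, Formula.reads]
    by_cases h : i ∈ (sbt x a g).vars
    · rw [if_pos h, if_pos (vars_sbt x a g h).2]
    · rw [if_neg h]
      exact Nat.zero_le _
  | gate c₀ c₁ c₂ c₃ p q ihp ihq => exact Nat.add_le_add ihp ihq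

theorem prog_iff {w s D : ℕ} {g : MvPolynomial (Fin n) ℂ} : Prog w s D g ↔
    Pool.Agent.Results.MP_c2aa42_lc.SumsOfSparseFormulas.Prog w s D g := by
  have hc : ∀ {u : ℕ} (c₀ : Fin u → ℂ) (M : ℕ → Matrix (Fin u) (Fin u) (MvPolynomial (Fin n) ℂ))
      (b : ℕ), MP_e2be99_lc.FormulasOverSparse.contents c₀ M b =
        Pool.Agent.Results.MP_c2aa42_lc.SumsOfSparseFormulas.contents c₀ M b := by
    intro u c₀ M b
    induction b with
    | zero => rfl
    | succ b ih =>
      rw [MP_e2be99_lc.FormulasOverSparse.contents, ih]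
      rfl
  constructor
  · intro h
    induction h with
    | sparse h1 h2 => exact .sparse h1 h2
    | program c₀ M R P h1 h2 _ ih =>
      rw [hc]
      exact .program c₀ M R P h1 h2 ih
  · intro h
    induction h with
    | sparse h1 h2 => exact .sparse h1 h2
    | program c₀ M R P h1 h2 _ ih =>
      rw [← hc]
      exact .program c₀ M R P h1 h2 ih

theorem fsbt_leaves {w s D : ℕ} (x : Fin n) (a : ℂ) (E : Formula n)
    (h : E.Leaves (Prog w s D)) : (fsbt x a E).Leaves (Prog w s D) := by
  induction E with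
  | leaf g => exact prog_iff.2 (prog_sbt x a (prog_iff.1 h))
  | gate c₀ c₁ c₂ c₃ p q ihp ihq => exact ⟨ihp h.1, ihq h.2⟩

theorem regular_fin {σ : Fin n → ℂ} {E : Formula n} (hE : Regular σ E) (x : Fin n) :
    {a : ℂ | ¬ Regular σ (fsbt x a E)}.Finite := by
  classical
  set L : List (MvPolynomial (Fin n) ℂ) := E.segs.flatMap Formula.partials with hL
  have h2 : ∀ h ∈ L.toFinset, {a : ℂ | h ≠ 0 ∧ eval (Function.update σ x a) h = 0}.Finite := by
    intro h hh
    by_cases h0 : h = 0
    · refine (Set.finite_empty).subset fun a ha => ?_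
      exact absurd h0 ha.1
    · obtain ⟨E', hE', hh'⟩ := List.mem_flatMap.1 (List.mem_toFinset.1 hh)
      exact (fin_eval x (hE E' hE' h hh' h0)).subset fun a ha => ha.2
  refine (L.toFinset.finite_toSet.biUnion fun h hh => h2 h (Finset.mem_coe.1 hh)).subset
    fun a ha => ?_
  by_contra hcon
  apply ha
  intro E' hE' g hg hg0
  rw [fsbt_segs] at hE'
  obtain ⟨E₀, hE₀, rfl⟩ := List.mem_map.1 hE'
  rw [fsbt_partials] at hg
  obtain ⟨h, hh, rfl⟩ := List.mem_map.1 hg
  rw [eval_sbt]
  intro hc
  apply hcon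
  refine Set.mem_biUnion (Finset.mem_coe.2 (List.mem_toFinset.2
    (List.mem_flatMap.2 ⟨E₀, hE₀, hh⟩))) ⟨?_, hc⟩
  rintro rfl
  exact hg0 (map_zero _)

theorem fac_fin {w s D : ℕ} {σ : Fin n → ℂ} {g : MvPolynomial (Fin n) ℂ} (h : Fac w s D σ g)
    (x : Fin n) : {a : ℂ | ¬ Fac w s D σ (sbt x a g)}.Finite := by
  classical
  obtain ⟨E, P, hE, rfl⟩ := h
  refine (Set.finite_iUnion fun i => regular_fin (hE i).2.2 x).subset fun a ha => ?_
  by_contra hcon
  apply ha
  refine ⟨fun i => fsbt x a (E i), P, fun i => ⟨fsbt_leaves x a _ (hE i).1, fun y =>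
    (fsbt_reads x a _ y).trans ((hE i).2.1 y), ?_⟩, ?_⟩
  · by_contra hc
    exact hcon (Set.mem_iUnion.2 ⟨i, hc⟩)
  · rw [comp_aeval_apply]
    congr 2
    funext i
    exact (fsbt_value x a _).symm

theorem gd_fin {w s D : ℕ} {σ : Fin n → ℂ} {g : MvPolynomial (Fin n) ℂ} (h : Gd w s D σ g)
    (x : Fin n) : {a : ℂ | ¬ Gd w s D σ (sbt x a g)}.Finite := by
  classical
  obtain ⟨T, hT, rfl⟩ := h
  refine (T.toFinset.finite_toSet.biUnion (t := fun h => {a : ℂ | ¬ Fac w s D σ (sbt x a h)})
    fun h hh => fac_fin (hT h (Multiset.mem_toFinset.1 (Finset.mem_coe.1 hh))) x).subset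
    fun a ha => ?_
  by_contra hcon
  apply ha
  refine ⟨T.map (sbt x a), fun g hg => ?_, map_multiset_prod _ _⟩
  obtain ⟨h, hh, rfl⟩ := Multiset.mem_map.1 hg
  by_contra hc
  exact hcon (Set.mem_biUnion (Finset.mem_coe.2 (Multiset.mem_toFinset.2 hh)) hc)

end subst

/-- the tests are admissible -/
theorem adm_of {w s D N M : ℕ} (hm : ∀ σ : Fin n → ℂ, (∀ i, σ i ≠ 0) →
      ∀ a b : Formula n, Good w s D a → Good w s D b →
      (∀ g ∈ a.partials, g ≠ 0 → eval σ g ≠ 0) → (∀ g ∈ b.partials, g ≠ 0 → eval σ g ≠ 0) →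
      ∀ f ∈ Algebra.adjoin ℂ ({a.value, b.value} : Set (MvPolynomial (Fin n) ℂ)), f ≠ 0 →
      sext f ∉ (rVan (sbase σ N)).I M ∅) {L : List (MvPolynomial (Fin n) ℂ)}
    (hL : Adm (Good w s D) L) : AdmH N M L := by
  induction hL with
  | nil => exact .nil
  | @snoc L g a b _ ha hb hga hgb hg ih =>
    exact ih.snoc fun σ hσ hreg h0 => hm σ hσ a b ha hb (fun x hx => hreg x (hga x hx))
      (fun x hx => hreg x (hgb x hx)) g hg h0

/-- the class is hit at every origin at which the tests do not vanish -/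
theorem net_run (w D κ r : ℕ) : ∃ A m : ℕ, ∀ n s N : ℕ, (s + 3) ^ A ≤ N →
    ∀ l : List (Formula n), (∀ E ∈ l, E.Leaves (Prog w s D) ∧ ∀ x, E.reads x ≤ w) →
    ∀ σ : Fin n → ℂ, (∀ i, σ i ≠ 0) → (∀ x ∈ tests l, x ≠ 0 → eval σ x ≠ 0) →
    ∀ f, Net (ThinSum l w κ r) w ∅ f → f ≠ 0 → sext f ∉ (rVan (sbase σ N)).I m ∅ := by
  obtain ⟨A, m, hm⟩ := gd_hit w D (2 ^ r * κ)
  refine ⟨A, m + r + 2 * w + w + 1, fun n s N hN l hl σ hσ hreg f hf h0 => ?_⟩
  refine net_hit (m := m + r + 2 * w) ?_ hf h0
  rintro _ ⟨R, T, hT, hth, rfl⟩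
  have h1 := thin_hit (β := sbase σ N) (m := m) (w := w) (Gd := Gd w s D σ)
    (fun g hg x => gd_fin hg x) r (κ := κ)
    (fun I J c g hJ hg => hm n s N hN σ hσ I J c g hJ hg) (Fin R) Finset.univ (fun _ => 1)
    (fun i => (T i).prod) (fun i => (T i).prod.vars)
    (fun i _ => ⟨⟨T i, fun h hh => ?_, rfl⟩, Finset.Subset.refl _⟩) hth
  · simpa only [C_1, one_mul] using h1
  · obtain ⟨E, P, hE, hgE⟩ := hT i h hh
    exact ⟨E, P, fun j => ⟨(hl _ (hE j)).1, (hl _ (hE j)).2, fun E' hE' x hx => hreg x
      (List.mem_flatMap.2 ⟨_, hE j, List.mem_flatMap.2 ⟨E', hE', hx⟩⟩)⟩, hgE⟩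

theorem thin_sum {w κ r N : ℕ} {l : List (Formula n)} (T : Fin N → Multiset (Formula n))
    (Y : Finset (Fin n)) (hw : 1 ≤ w) (hY : Y.card ≤ w) (hT : ∀ i, ∀ E ∈ T i, E ∈ l)
    (h : ∀ S : Finset (Fin n), S.card = r → Disjoint S Y →
      (Finset.univ.filter fun i => S ⊆ ((T i).map Formula.value).prod.vars).card ≤ κ) :
    ThinSum l w κ r (∑ i, ((T i).map Formula.value).prod) := by
  refine ⟨N, fun i => (T i).map Formula.value, fun i g hg => ?_, ?_, rfl⟩
  · obtain ⟨E, hE, rfl⟩ := Multiset.mem_map.1 hg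
    exact ⟨fun _ => E, X ⟨0, hw⟩, fun _ => hT i E hE, by rw [aeval_X]⟩
  · refine thin_of_sets Y hY r _ _ fun S hS hSY => le_trans (le_of_eq ?_) (h S hS hSY)
    congr!

/-- Let `w, D, κ, r` be fixed. There are `k, m` such that the following holds for every list `l` of
formulas in `n` variables over leaves of depth at most `D` (for instance, for `D = 0`, over
polynomials with at most `s` monomials of degree less than `w` in every variable), where every
variable occurs in at most `w` leaves of a formula, and for every `d` that is at least `n` plus the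
sum of the degrees of the polynomials in `tests l`. Let `N = (s + 3)^k`. The search `Run` over the
explicit sets `points n m N d` and the list `tests l` always ends in an origin `σ` such that every
polynomial `f` of degree at most `d` that divides a product of nonzero members of
`Net (ThinSum l w κ r) w ∅` does not vanish at some of the at most `(Nd+1) ((d+1)(nd+1))^m` points
of `points n m N d σ`. The coordinates of `σ` have polynomial length, there are polynomially many
tests, their degrees are bounded polynomially, and `ThinSum l w κ r` contains every sum of products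
of members of `l` such that any `r` variables, outside of an exceptional set of `w` variables,
occur together in at most `κ` of the products. -/
theorem result :
    (∀ w D κ r : ℕ, ∃ k m : ℕ, ∀ (n d s : ℕ) (l : List (Formula n)),
      (∀ E ∈ l, E.Leaves (Prog w s D) ∧ ∀ x, E.reads x ≤ w) →
      n + ((tests l).map totalDegree).sum ≤ d →
      (∀ σ, (points n m ((s + 3) ^ k) d σ).card ≤
        ((s + 3) ^ k * d + 1) * ((d + 1) * (n * d + 1)) ^ m) ∧
      (∃ σ K, Run (points n m ((s + 3) ^ k) d) (tests l) σ K) ∧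
      ∀ σ K, Run (points n m ((s + 3) ^ k) d) (tests l) σ K →
        (∀ i, |σ i| ≤ (((2 ^ (n * (s + 3) ^ k * d) + m * d * (n * d + n) ^ (n - 1)) ^
          (tests l).length : ℕ) : ℤ)) ∧
        ∀ (f : MvPolynomial (Fin n) ℂ) (F : Multiset (MvPolynomial (Fin n) ℂ)),
          (∀ g ∈ F, Net (ThinSum l w κ r) w ∅ g ∧ g ≠ 0) → f ∣ F.prod → f.totalDegree ≤ d →
          ∃ p ∈ points n m ((s + 3) ^ k) d σ, eval (fun i => (p i : ℂ)) f ≠ 0) ∧
    (∀ (n S δ : ℕ) (l : List (Formula n)),
      (∀ E ∈ l, E.size ≤ S ∧ E.Leaves (fun g => g.totalDegree ≤ δ)) →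
      (tests l).length ≤ 12 * l.length * S ^ 3 ∧
        ((tests l).map totalDegree).sum ≤ 12 * l.length * S ^ 4 * δ) ∧
    (∀ (n w κ r N : ℕ) (l : List (Formula n)) (T : Fin N → Multiset (Formula n))
      (Y : Finset (Fin n)), 1 ≤ w → Y.card ≤ w → (∀ i, ∀ E ∈ T i, E ∈ l) →
      (∀ S : Finset (Fin n), S.card = r → Disjoint S Y →
        (Finset.univ.filter fun i => S ⊆ ((T i).map Formula.value).prod.vars).card ≤ κ) →
      ThinSum l w κ r (∑ i, ((T i).map Formula.value).prod)) := by
  refine ⟨?_, fun n S δ l h => MP_e2be99_lc.FormulasOverSparse.tests_count l S δ h,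
    fun n w κ r N l T Y hw hY hT h => thin_sum T Y hw hY hT h⟩
  intro w D κ r
  obtain ⟨A₀, m₀, h₀⟩ := MP_e2be99_lc.FormulasOverSparse.pair_hit w D
  obtain ⟨A₁, m₁, h₁⟩ := net_run w D κ r
  refine ⟨A₀ + A₁, m₀ + m₁, fun n d s l hl hD => ⟨fun σ =>
    MP_e2be99_lc.FormulasOverSparse.points_card _ _ d σ,
    MP_e2be99_lc.FormulasOverSparse.exists_run _ _,
    fun σ K hrun => ⟨fun i => hrun.bound i, ?_⟩⟩⟩
  intro f F hF hdvd hd
  have hN0 : (s + 2) ^ A₀ ≤ (s + 3) ^ (A₀ + A₁) :=
    (Nat.pow_le_pow_left (Nat.le_succ _) A₀).trans (Nat.pow_le_pow_right (by omega) (by omega))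
  have hN1 : (s + 3) ^ A₁ ≤ (s + 3) ^ (A₀ + A₁) := Nat.pow_le_pow_right (by omega) (by omega)
  refine run_hit (adm_of (w := w) (s := s) (D := D) ?_
    (Adm.tests l (MP_e2be99_lc.FormulasOverSparse.good_of hl))) hD
    (Cls := Net (ThinSum l w κ r) w ∅) ?_ hrun hF hdvd hd
  · intro σ hσ a b ha hb hra hrb f hf hf0 hc
    exact h₀ n s _ hN0 σ hσ a b ha hb hra hrb f hf hf0
      ((rVan _).mono (Nat.le_add_right m₀ m₁) ∅ hc)
  · intro σ hσ hreg f hf h0 hc
    exact h₁ n s _ hN1 l hl σ hσ hreg f hf h0 ((rVan _).mono (Nat.le_add_left m₁ m₀) ∅ hc)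

end Pool.Agent.Results.MP_3c5c20_lc.OverlappingSums
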