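import Mathlib
import Pool.Agent.W943.Cut.C6

/-!
# Explicit hitting sets for orbits of tree tensor networks and of universal networks

We consider compositions `F ∘ φ`, where `F` is computed by a read-once tree tensor network in `m`
variables and `φ` is a tuple of `m` linearly independent affine forms in `n` variables (or another
submersive tuple of polynomials). The explicit set has `((D+1)(nD+1))^s` points, with

* `s = k + (W-1) d` for tree tensor networks of bond dimension `W` with at most `(3/2)^d k`
  variables, at most one in each node, of arbitrary degrees;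
* `s = d` for tree networks of any bond dimension with less than `2^d` nodes whose arrays are sums
  of their variables times arrays of rank one.

The second class is quasipolynomial even for universal networks: for all `W` and `Δ` it contains a
network with less than `2^(Δ+1)` nodes and at most `2^(Δ+1) W^3` variables, from which every circuit
with `Δ` layers of `W` gates is obtained by substituting affine forms for the variables. By the
depth reduction of Valiant, Skyum, Berkowitz and Rackoff these are all polynomials of VP for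
`Δ = O(log n)`, so the orbits treated are dense in VP.
-/

namespace Pool.Agent.Results.MP_3c5c20_lc.UniversalNetworks

open MvPolynomial Pool.Agent.W943.Cut

/-- `f` is a nonzero composition of a read-once tree network and a submersive tuple, with the number
`s` of seed pairs given by the bond dimension and the number of variables, or by the number of
nodes. -/
def InOrbit (n s : ℕ) (f : MvPolynomial (Fin n) ℂ) : Prop :=
  ∃ (m W : ℕ) (φ : Fin m → MvPolynomial (Fin n) ℂ) (N : Net m W) (c : Fin W → ℂ),
    Submersive φ ∧ N.Once ∧ f = aeval φ (N.out c) ∧ f ≠ 0 ∧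
    ((N.Single ∧ ∃ k d, N.reads.card * 2 ^ d ≤ k * 3 ^ d ∧ k + (W - 1) * d ≤ s) ∨
      (N.RankOne ∧ N.size < 2 ^ s))

theorem InOrbit.cls {n s : ℕ} {f : MvPolynomial (Fin n) ℂ} (h : InOrbit n s f) : Cls n s f := by
  obtain ⟨m, W, φ, N, c, hφ, hN, rfl, h0, h⟩ := h
  have h1 : N.out c ≠ 0 := by
    intro h1
    apply h0
    rw [h1, map_zero]
  apply hφ.cls
  rcases h with ⟨h2, k, d, hk, hs⟩ | ⟨h2, hs⟩
  · refine (net_mem d N c hN h2 ?_ h1).mono hs
    have : 0 < 2 ^ d := by positivity
    omega
  · exact rankOne_mem s N c hN h2 hs h1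

/-- The explicit set `points n s D ⊆ ℤ^n` has at most `((D+1)(nD+1))^s` elements, with coordinates
of polynomial bit length, and it hits every polynomial of degree at most `D` which divides a
product of compositions `F ∘ φ` as above: `F` is computed by a read-once tree network, `φ` consists
for instance of linearly independent affine forms. The class contains, for `s = Δ + 1`, the orbits
of a universal network for circuits with `Δ` layers of `W` gates. -/
theorem result (n s D : ℕ) :
    (points n s D).card ≤ ((D + 1) * (n * D + 1)) ^ s ∧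
    (∀ p ∈ points n s D, ∀ i, |p i| ≤ ((s * D * (n * D + n) ^ (n - 1) : ℕ) : ℤ)) ∧
    (∀ (f : MvPolynomial (Fin n) ℂ) (l : List (MvPolynomial (Fin n) ℂ)), f.totalDegree ≤ D →
      (∀ g ∈ l, InOrbit n s g) → f ∣ l.prod →
      ∃ p ∈ points n s D, MvPolynomial.eval (fun i => (p i : ℂ)) f ≠ 0) ∧
    (∀ (m : ℕ) (A : Fin m → Fin n → ℂ) (b : Fin m → ℂ), LinearIndependent ℂ A →
      Submersive (fun k => ∑ l, C (A k l) * X l + C (b k) : Fin m → MvPolynomial (Fin n) ℂ)) ∧
    (∀ W Δ : ℕ, ∃ (m : ℕ) (N : Net m W), m ≤ 2 ^ (Δ + 1) * W ^ 3 ∧ N.Once ∧ N.RankOne ∧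
      N.size < 2 ^ (Δ + 1) ∧ ∀ (n : ℕ) (g : Fin W → MvPolynomial (Fin n) ℂ), Layered n W Δ g →
        ∃ φ : Fin m → MvPolynomial (Fin n) ℂ, (∀ i, (φ i).totalDegree ≤ 1) ∧
          ∀ c : Fin W → ℂ, aeval φ (N.out c) = ∑ a, C (c a) * g a) := by
  refine ⟨Pool.Agent.H530R2.hitSet_card n _ D,
    fun p hp i => Pool.Agent.H530R2.hitSet_bound n _ D p hp i,
    fun _ l hD hl hf => hit hD l (fun g hg => (hl g hg).cls) hf,
    fun _ A b hA => submersive_affine A b hA,
    fun W Δ => ⟨uvars W Δ, unet W Δ, uvars_le W Δ, unet_once W Δ, unet_rankOne W Δ,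
      unet_size W Δ, fun n g hg => ?_⟩⟩
  obtain ⟨φ, h1, h2⟩ := unet_universal hg
  refine ⟨φ, h1, fun c => ?_⟩
  unfold Net.out
  rw [map_sum]
  refine Finset.sum_congr rfl fun a _ => ?_
  rw [map_mul, h2]
  congr 1
  rw [← MvPolynomial.algebraMap_eq, AlgHom.commutes]
  rfl

end Pool.Agent.Results.MP_3c5c20_lc.UniversalNetworks
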